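import Pool.Agent.KT3.StmtsD

/-!
# KT3, row ZPP (helper48): large faces have approximate boxes
-/

set_option autoImplicit false

open Matrix Filter Topology

namespace Pool.Agent.KT3.H48

open Pool.Agent.PFS Pool.Agent.PFJ Pool.Agent.NBT

/-- a subspace of any dimension between two given subspaces -/
theorem exists_between {E : Type} [AddCommGroup E] [Module ℝ E] [FiniteDimensional ℝ E]
    (S B : Submodule ℝ E) (hSB : S ≤ B) (δ : ℕ) (h1 : Module.finrank ℝ S ≤ δ)
    (h2 : δ ≤ Module.finrank ℝ B) :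
    ∃ L : Submodule ℝ E, S ≤ L ∧ L ≤ B ∧ Module.finrank ℝ L = δ := by
  induction δ, h1 using Nat.le_induction with
  | base => exact ⟨S, le_rfl, hSB, rfl⟩
  | succ k hk ih =>
    obtain ⟨L, hSL, hLB, hL⟩ := ih (by omega)
    have hlt : L < B := by
      refine lt_of_le_of_ne hLB fun h => ?_
      rw [h] at hL
      omega
    obtain ⟨v, hvB, hvL⟩ := SetLike.exists_of_lt hlt
    refine ⟨L ⊔ Submodule.span ℝ {v}, hSL.trans le_sup_left,
      sup_le hLB ((Submodule.span_singleton_le_iff_mem v B).2 hvB), ?_⟩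
    rw [Submodule.finrank_sup_span_singleton hvL, hL]

/-- Row ZPP. -/
theorem zpp (lfm : LfmStmt) : ZppStmt := by
  intro n C Γ d h w hw x hx δ hδ hδ' ε M hε hM
  have hP : PCone C := h.toHI.toHK.toCC.toPCone
  have hwc : ∀ i, w i ∈ closure C := fun i => hw.pes.1.cl i
  have hux := (lfm n C Γ d h w hw).2 x hx
  have hf : fS (up w x) I02 = x + w 2 := by
    rw [fS_pair _ (by decide)]
    simp [up]
  have hB : BI C (up w x) I02 = Submodule.span ℝ (Face C (x + w 2)) := by
    rw [BI, hf]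
  rw [hB] at hδ'
  have hxw : x + w 2 ∈ closure C := hP.cl_add hx.cl (hwc 2)
  obtain ⟨hu1, hu2, -⟩ := fcs n C hP (x + w 2) hxw
  set B : Submodule ℝ (V n) := Submodule.span ℝ (Face C (x + w 2)) with hBdef
  have hxB : x ∈ B := hu2 x hx.cl 1 (by rw [one_smul, add_sub_cancel_left]; exact hwc 2)
  have hwB : w 2 ∈ B := hu2 (w 2) (hwc 2) 1 (by rw [one_smul, add_sub_cancel_right]; exact hx.cl)
  -- the span of `x` and `w 2`
  have hspan : Submodule.span ℝ {x, w 2} ≤ B := by
    rw [Submodule.span_le, Set.insert_subset_iff, Set.singleton_subset_iff]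
    exact ⟨hxB, hwB⟩
  have hfin : Module.finrank ℝ (Submodule.span ℝ {x, w 2}) ≤ δ := by
    refine le_trans ?_ hδ
    classical
    have h1 := finrank_span_finset_le_card (R := ℝ) ({x, w 2} : Finset (V n))
    rw [Finset.coe_insert, Finset.coe_singleton] at h1
    exact h1.trans Finset.card_le_two
  obtain ⟨L, hSL, hLB, hL⟩ := exists_between _ B hspan δ hfin hδ'
  have hxL : x ∈ L := hSL (Submodule.subset_span (by simp))
  have hwL : w 2 ∈ L := hSL (Submodule.subset_span (by simp))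
  by_contra hcon
  push Not at hcon
  have hbad : ∀ m : ℕ, ∃ u ∈ L, u + Real.exp (-(m : ℝ)) • w 1 ∈ closure C ∧
      M • (x + w 2 + Real.exp (-(m : ℝ)) • w 1) - u ∈ closure C ∧
      u + ε • (x + w 2) ∉ closure C := by
    intro m
    by_contra hc
    push Not at hc
    exact hcon m ⟨L, hL, hxL, hwL, fun u hu h1 h2 => hc u hu h1 h2⟩
  choose u huL hu3 hu4 hu5 using hbad
  obtain ⟨b, hb, hnorm⟩ := hP.normal
  have hexp : ∀ m : ℕ, Real.exp (-(m : ℝ)) ≤ 1 := fun m =>
    Real.exp_le_one_iff.2 (neg_nonpos.2 (Nat.cast_nonneg m))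
  have hbd : ∀ m, ‖u m‖ ≤ b * ‖M • (x + w 2) + (M + 1) • w 1‖ + ‖w 1‖ := by
    intro m
    have h1 : (M • (x + w 2) + (M + 1) • w 1) - (u m + Real.exp (-(m : ℝ)) • w 1) ∈ closure C := by
      have e : (M • (x + w 2) + (M + 1) • w 1) - (u m + Real.exp (-(m : ℝ)) • w 1) =
          (M • (x + w 2 + Real.exp (-(m : ℝ)) • w 1) - u m) +
            ((M + 1) * (1 - Real.exp (-(m : ℝ)))) • w 1 := by
        module
      rw [e]
      exact hP.cl_add (hu4 m) (hP.cl_smul (hwc 1)
        (mul_nonneg (by linarith) (sub_nonneg.2 (hexp m))))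
    have h2 := hnorm _ _ (hu3 m) h1
    have h3 : u m = (u m + Real.exp (-(m : ℝ)) • w 1) - Real.exp (-(m : ℝ)) • w 1 := by abel
    have h4 : ‖Real.exp (-(m : ℝ)) • w 1‖ ≤ ‖w 1‖ := by
      rw [norm_smul, Real.norm_of_nonneg (Real.exp_pos _).le]
      exact mul_le_of_le_one_left (norm_nonneg _) (hexp m)
    calc ‖u m‖ = ‖(u m + Real.exp (-(m : ℝ)) • w 1) - Real.exp (-(m : ℝ)) • w 1‖ := by rw [← h3]
      _ ≤ ‖u m + Real.exp (-(m : ℝ)) • w 1‖ + ‖Real.exp (-(m : ℝ)) • w 1‖ := norm_sub_le _ _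
      _ ≤ _ := add_le_add h2 h4
  obtain ⟨v, -, φ, hφ, hlim⟩ := tendsto_subseq_of_bounded
    (Metric.isBounded_closedBall (x := (0 : V n))
      (r := b * ‖M • (x + w 2) + (M + 1) • w 1‖ + ‖w 1‖)) (x := u)
    (fun m => by rw [Metric.mem_closedBall, dist_zero_right]; exact hbd m)
  have hvL : v ∈ L := (Submodule.closed_of_finiteDimensional L).mem_of_tendsto hlim
    (Eventually.of_forall fun m => huL _)
  have hexp0 : Tendsto (fun m : ℕ => Real.exp (-((φ m : ℕ) : ℝ))) atTop (𝓝 0) :=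
    (Real.tendsto_exp_neg_atTop_nhds_zero.comp tendsto_natCast_atTop_atTop).comp
      hφ.tendsto_atTop
  have hvC : v ∈ closure C := by
    have h1 : Tendsto (fun m : ℕ => u (φ m) + Real.exp (-((φ m : ℕ) : ℝ)) • w 1) atTop
        (𝓝 (v + (0 : ℝ) • w 1)) := hlim.add (hexp0.smul_const _)
    rw [zero_smul, add_zero] at h1
    exact isClosed_closure.mem_of_tendsto h1 (Eventually.of_forall fun m => hu3 _)
  have hunit : Unt C B (ε • (x + w 2) + v) := by
    have h1 := (Pool.Agent.PFJ.H76.unf n C hP B _ hu1).1 ε hε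
    exact (Pool.Agent.PFJ.H76.unf n C hP B _ h1).2.2.1 v (hLB hvL) hvC
  have hz : Tendsto (fun m => u (φ m) - v) atTop (𝓝 0) := by
    have h1 := hlim.sub_const v
    rw [sub_self] at h1
    exact h1
  have hev := uop n C hP B _ hunit (fun m => u (φ m) - v)
    (fun m => Submodule.sub_mem _ (hLB (huL _)) (hLB hvL)) hz
  obtain ⟨m, hm⟩ := hev.exists
  apply hu5 (φ m)
  have e : ε • (x + w 2) + v + (u (φ m) - v) = u (φ m) + ε • (x + w 2) := by abel
  rw [← e]
  exact hm

end Pool.Agent.KT3.H48
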